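import Pool.Agent.H475R2.F8

/-!
# The supercongruence for `C(2k,k)^2 C(3k,k) / 8^k` modulo `p ^ 2`
-/

set_option autoImplicit false

namespace Pool.Agent.Results.MP_5bfa61_nt.QOneFull

/-- `A ≡ B (mod p^m)` for rational numbers: `A - B = p^m r` with the denominator of `r` prime
to `p`. -/
def Congr (p m : ℕ) (A B : ℚ) : Prop := ∃ r : ℚ, A - B = (p : ℚ) ^ m * r ∧ ¬ p ∣ r.den

/-- The sum `S_p = ∑_{k=0}^{p-1} C(2k,k)^2 C(3k,k) / 8^k`. -/
def S (p : ℕ) : ℚ :=
  ∑ k ∈ Finset.range p, ((Nat.choose (2 * k) k : ℚ) ^ 2 * (Nat.choose (3 * k) k : ℚ)) / (8 : ℚ) ^ k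

theorem S_three : S 3 = 175 / 16 := by
  unfold S
  simp only [Finset.sum_range_succ, Finset.sum_range_zero]
  norm_num [Nat.choose]

theorem S_eq (p : ℕ) : S p = ∑ k ∈ Finset.range p, (H475R2.u3 k : ℚ) / ((8 : ℤ) : ℚ) ^ k := by
  unfold S H475R2.u3
  apply Finset.sum_congr rfl
  intro k _
  push_cast
  rfl

theorem result (p : ℕ) [hp : Fact p.Prime] (hodd : p ≠ 2) :
    (legendreSym p (-2) = 1 → ∀ x y : ℤ, (p : ℤ) = x ^ 2 + 2 * y ^ 2 →
      Congr p 2 (S p) ((4 * x ^ 2 - 2 * p : ℤ) : ℚ)) ∧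
    (legendreSym p (-2) = -1 → Congr p 2 (S p) 0) := by
  have hpp := hp.out
  rcases Nat.lt_or_ge p 5 with hlt | hp5
  · have h3 : p = 3 := by
      have h2 := hpp.two_le
      interval_cases p
      · exact absurd rfl hodd
      · rfl
      · exact absurd hpp (by decide)
    subst h3
    constructor
    · intro _ x y hxy
      have hx : x ^ 2 = 1 := by
        have hxy' : (3 : ℤ) = x ^ 2 + 2 * y ^ 2 := by exact_mod_cast hxy
        have hy2 : y ^ 2 ≤ 1 := by nlinarith [sq_nonneg x]
        have hy3 : -1 ≤ y := by nlinarith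
        have hy4 : y ≤ 1 := by nlinarith
        have hx3 : -1 ≤ x := by nlinarith [sq_nonneg y]
        have hx4 : x ≤ 1 := by nlinarith [sq_nonneg y]
        interval_cases x <;> interval_cases y <;> omega
      refine ⟨23 / 16, ?_, ?_⟩
      · rw [S_three, hx]; norm_num
      · have : ((23 / 16 : ℚ)).den = 16 := by norm_num
        rw [this]; decide
    · intro h
      exfalso
      have : legendreSym 3 (-2) = 1 := by norm_num
      rw [this] at h
      norm_num at h
  · have h8 : ¬ (p : ℤ) ∣ 8 := by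
      intro hd
      have h1 : p ∣ 2 ^ 3 := by exact_mod_cast hd
      have := Nat.le_of_dvd (by norm_num) (hpp.dvd_of_dvd_pow h1)
      omega
    obtain ⟨mi, hmi⟩ := (H475R2.isUnit_intCast (p := p) h8).exists_right_inv
    have hmi' : (8 : ℤ_[p]) * mi = 1 := by push_cast at hmi; exact hmi
    constructor
    · intro _ x y hxy
      have := H475R2.to_rat h8 hmi (H475R2.split8 hp5 hxy hmi')
      rw [S_eq]
      exact this
    · intro h
      have h1 := H475R2.inert8 hp5 h hmi'
      have := H475R2.to_rat (tgt := 0) h8 hmi (by push_cast; rw [sub_zero]; exact h1)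
      rw [S_eq]
      push_cast at this ⊢
      exact this

end Pool.Agent.Results.MP_5bfa61_nt.QOneFull
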